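import Pool.Agent.N218.P21G.Lin7
import Pool.Agent.N970.RQ.Bil7c

/-!
# Project P21G: `S_BILN` and `S_BILN2`
-/

set_option autoImplicit false
set_option linter.unusedSectionVars false

namespace Pool.Agent.N218.P21G

open Finset
open Pool.Agent.N969.P15 (V3 Ev c2)
open Pool.Agent.N969.RQ (ip7 vec7 Fd c7)
open Pool.Agent.N969.P17G (sgnE)
open Pool.Agent.N877.P21G (Fn wn cn I7 L37 cp3 X7 N7 As Kn PrN S_BILN S_BILN2)
open Pool.Agent.N970.P21G (mem7 t_CP3)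
open Pool.Agent.N970.RQ (cl cl_eq sum_cl dvd28 cl_dvd I7_of jac7 cs7 ip7_eq)
open Pool.Agent.N871.G21 (Fn_mul Fn_two)

theorem j31 {x : ℤ} (h : x % 3 = 1) : jacobiSym x 3 = 1 := by
  rw [jacobiSym.mod_left]
  have e : x % ((3 : ℕ) : ℤ) = 1 := h
  rw [e, jacobiSym.one_left]

theorem j32 {x : ℤ} (h : x % 3 = 2) : jacobiSym x 3 = -1 := by
  rw [jacobiSym.mod_left]
  have e : x % ((3 : ℕ) : ℤ) = 2 := h
  rw [e]
  norm_num

theorem loc3 {N b T : ℤ} (h : 2 * T = N + b) (h3 : (3 : ℤ) ∣ N ^ 2 - b ^ 2) (hN : ¬ (3 : ℤ) ∣ N) :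
    1 + jacobiSym (-N) 3 * jacobiSym b 3 = if (3 : ℤ) ∣ T then 2 else 0 := by
  have e : N ^ 2 - b ^ 2 = (N - b) * (N + b) := by ring
  rw [e] at h3
  have hN' : N % 3 = 1 ∨ N % 3 = 2 := by omega
  rcases Int.prime_three.dvd_or_dvd h3 with h4 | h4
  · rw [if_neg (by omega)]
    rcases hN' with h5 | h5
    · rw [j32 (x := -N) (by omega), j31 (x := b) (by omega)]
      norm_num
    · rw [j31 (x := -N) (by omega), j32 (x := b) (by omega)]
      norm_num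
  · rw [if_pos (by omega)]
    rcases hN' with h5 | h5
    · rw [j32 (x := -N) (by omega), j32 (x := b) (by omega)]
      norm_num
    · rw [j31 (x := -N) (by omega), j31 (x := b) (by omega)]
      norm_num

theorem loc7 {N b T : ℤ} (h : 2 * T = N + b) (h7 : (7 : ℤ) ∣ N ^ 2 - b ^ 2)
    (hN : jacobiSym N 7 = 1) : 1 + jacobiSym b 7 = if (7 : ℤ) ∣ N - T then 2 else 0 := by
  have p7 : Prime (7 : ℤ) := by
    have : Nat.Prime 7 := by norm_num
    exact Nat.prime_iff_prime_int.1 this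
  have hN0 : ¬ (7 : ℤ) ∣ N := by
    intro h0
    rw [jac7_congr (a := N) (b := 0) (by rwa [sub_zero])] at hN
    norm_num at hN
  have e : N ^ 2 - b ^ 2 = (N - b) * (N + b) := by ring
  rw [e] at h7
  rcases p7.dvd_or_dvd h7 with h4 | h4
  · rw [if_pos (by omega), ← jac7_congr h4, hN]
    norm_num
  · have h5 : (7 : ℤ) ∣ b - (-N) := by
      have : b - (-N) = N + b := by ring
      rw [this]; exact h4
    rw [if_neg (by omega), jac7_congr h5, jac7_neg, hN]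
    norm_num

/-- **the sum over `T`** -/
theorem bil {n1 n2 N : ℕ} {E1 E2 : V3 → ℤ} (H1 : EF n1 E1) (H2 : EF n2 E2) (h1 : n1 % 3 = 2)
    (h2 : n2 % 3 = 2) (hN : n1 * n2 = N ^ 2) (hN7 : jacobiSym N 7 = 1) :
    4 * ∑ T ∈ (range N).filter (fun T => 3 ∣ T ∧ 7 ∣ N - T),
      ∑ q ∈ (vec7 n1 ×ˢ vec7 n2).filter (fun q => ip7 q.1 q.2 = 2 * T - (N : ℤ)),
        E1 q.1 * E2 q.2 * cl q.1 q.2 =
      (∑ v ∈ vec7 n1, E1 v) * (∑ v ∈ vec7 n2, E2 v) -
      jacobiSym (-(N : ℤ)) 3 * ((∑ v ∈ vec7 n1, wn v * E1 v) * ∑ v ∈ vec7 n2, wn v * E2 v) := by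
  have hres := pair_res H1 H2 h1 h2 (jacobiSym (-(N : ℤ)) 3) 1
  rw [mul_one] at hres
  rw [← hres]
  have hNz : (n1 : ℤ) * n2 = (N : ℤ) ^ 2 := by exact_mod_cast hN
  have hN3 : ¬ 3 ∣ N := by
    rintro ⟨k, rfl⟩
    have h3 : (n1 * n2) % 3 = 1 := by rw [Nat.mul_mod, h1, h2]
    rw [hN] at h3
    have e : (3 * k) ^ 2 = 3 * (3 * k ^ 2) := by ring
    omega
  simp only [sum_filter]
  rw [mul_sum]
  have e1 : ∀ T ∈ range N, 4 * (if 3 ∣ T ∧ 7 ∣ N - T then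
      ∑ q ∈ vec7 n1 ×ˢ vec7 n2, (if ip7 q.1 q.2 = 2 * T - (N : ℤ) then
        E1 q.1 * E2 q.2 * cl q.1 q.2 else 0) else 0) =
      ∑ q ∈ vec7 n1 ×ˢ vec7 n2, E1 q.1 * E2 q.2 * cl q.1 q.2 *
        (if (3 ∣ T ∧ 7 ∣ N - T) ∧ ip7 q.1 q.2 = 2 * T - (N : ℤ) then 4 else 0) := by
    intro T _
    by_cases hT : 3 ∣ T ∧ 7 ∣ N - T
    · rw [if_pos hT, mul_sum]
      refine sum_congr rfl fun q _ => ?_
      by_cases hq : ip7 q.1 q.2 = 2 * T - (N : ℤ)
      · rw [if_pos hq, if_pos ⟨hT, hq⟩]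
        ring
      · rw [if_neg hq, if_neg (fun h => hq h.2)]
        ring
    · rw [if_neg hT, mul_zero]
      symm
      refine sum_eq_zero fun q _ => ?_
      rw [if_neg (fun h => hT h.1), mul_zero]
  rw [sum_congr rfl e1, sum_comm]
  refine sum_congr rfl fun q hq => ?_
  rw [mem_product] at hq
  have hv := mem7.1 hq.1
  have hw := mem7.1 hq.2
  rw [← mul_sum]
  by_cases hc : cl q.1 q.2 = 0
  · rw [hc]
    ring
  congr 1
  have h3 := cl_dvd h1 h2 hv hw hc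
  have h28 := dvd28 q.1 q.2
  rw [hv, hw, hNz] at h28
  rw [hNz] at h3
  set b := ip7 q.1 q.2 with hb
  have hpar : (2 : ℤ) ∣ N + b := by
    have e2 : (N : ℤ) ^ 2 - b ^ 2 = (N + b) * (N - b) := by ring
    rw [e2] at h28
    have h5 : (2 : ℤ) ∣ (N + b) * (N - b) := Dvd.dvd.trans (by norm_num) h28
    rcases Int.prime_two.dvd_or_dvd h5 with h | h
    · exact h
    · have e3 : (N : ℤ) + b = (N - b) + 2 * b := by ring
      rw [e3]
      exact dvd_add h (dvd_mul_right _ _)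
  obtain ⟨T, hT⟩ := hpar
  have hcs := cs7 q.1 q.2
  rw [← ip7_eq, ← ip7_eq, ← ip7_eq, hv, hw, hNz, ← hb] at hcs
  obtain ⟨hb1, hb2⟩ := abs_le.1 (abs_le_of_sq_le_sq hcs (by positivity : (0 : ℤ) ≤ N))
  have hT0 : 0 ≤ T := by linarith
  obtain ⟨U, rfl⟩ := Int.eq_ofNat_of_zero_le hT0
  have hUN : U ≤ N := by
    have : (U : ℤ) ≤ N := by linarith
    exact_mod_cast this
  have hN3' : ¬ (3 : ℤ) ∣ N := by exact_mod_cast hN3
  have g3 := loc3 (N := N) (b := b) (T := U) (by linarith) h3 hN3'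
  have g7 := loc7 (N := N) (b := b) (T := U) (by linarith) (Dvd.dvd.trans (by norm_num) h28) hN7
  rw [one_mul, g3, g7]
  have e4 : ∀ T ∈ range N, (if (3 ∣ T ∧ 7 ∣ N - T) ∧ b = 2 * (T : ℤ) - N then (4 : ℤ) else 0) =
      if T = U then (if 3 ∣ U ∧ 7 ∣ N - U then 4 else 0) else 0 := by
    intro T _
    by_cases h : T = U
    · subst h
      rw [if_pos rfl]
      have : b = 2 * (T : ℤ) - N := by linarith
      simp only [this, and_true]
    · rw [if_neg h, if_neg]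
      rintro ⟨-, h5⟩
      apply h
      omega
  rw [sum_congr rfl e4, sum_ite_eq' (range N) U]
  have k3 : (3 : ℤ) ∣ (U : ℤ) ↔ 3 ∣ U := by norm_cast
  have k7 : (7 : ℤ) ∣ (N : ℤ) - U ↔ 7 ∣ N - U := by
    rw [← Nat.cast_sub hUN]
    norm_cast
  simp only [k3, k7]
  by_cases hU : U ∈ range N
  · rw [if_pos hU]
    split_ifs <;> simp_all
  · rw [if_neg hU]
    have hUN' : U = N := by
      rw [mem_range] at hU
      omega
    rw [hUN', if_neg hN3]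
    norm_num

/-- the number of common lines of the pairs with given inner product -/
theorem cl_L37 {n1 n2 T N : ℕ} (hF : Fn n1) (h4 : 2 ∣ n1 → 4 ∣ n2) (h1 : n1 % 3 = 2) (hI : I7 n1)
    (h2 : n2 % 3 = 2) (hN : n1 * n2 = N ^ 2) (hT0 : 0 < T) (hTN : T < N) (h3 : 3 ∣ T) :
    ∑ q ∈ (vec7 n1 ×ˢ vec7 n2).filter (fun q => ip7 q.1 q.2 = 2 * T - (N : ℤ)), cl q.1 q.2 =
      8 * L37 n1 (2 * T - (N : ℤ)) (4 * (N - T) * T) := by
  have hNz : (n1 : ℤ) * n2 = (N : ℤ) ^ 2 := by exact_mod_cast hN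
  have hD : ((4 * (N - T) * T : ℕ) : ℤ) = n1 * n2 - (2 * T - (N : ℤ)) ^ 2 := by
    rw [hNz]
    push_cast [Nat.cast_sub hTN.le]
    ring
  have h3D : 3 ∣ 4 * (N - T) * T := h3.mul_left _
  rw [sum_cl h1 h2, if_pos (by rw [← hD]; exact_mod_cast h3D)]
  exact t_CP3 n1 n2 _ _ hF h4 h1 hI h2
    (Nat.mul_pos (Nat.mul_pos (by norm_num) (Nat.sub_pos_of_lt hTN)) hT0) h3D hD

theorem ef_one (n : ℕ) : EF n (fun _ => 1) := ⟨fun _ _ => rfl, fun _ _ => rfl, fun _ _ => rfl⟩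

theorem i7_nd {n : ℕ} (h : I7 n) : ¬ 7 ∣ n := by
  unfold I7 at h
  omega

/-- **BILN** -/
theorem t_BILN : S_BILN := by
  rintro A m ⟨hA, ⟨hFm, hm3, hm7⟩, hcop⟩
  have hAor : A = 1 ∨ Fd A := hA.imp id fun h => h.1
  have hA3 : A % 3 = 1 := by
    rcases hA with rfl | h
    · rfl
    · exact h.2.1
  have hA7 : jacobiSym A 7 = 1 := by
    rcases hA with rfl | h
    · norm_num
    · exact h.2.2
  obtain ⟨hF, -⟩ := Fn_mul hAor hFm hcop
  have h3 : (A * m) % 3 = 2 := by rw [Nat.mul_mod, hA3, hm3]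
  have hj : jacobiSym ((A * m : ℕ) : ℤ) 7 = 1 := by
    push_cast
    rw [jacobiSym.mul_left, hA7, (jac7 hm7).1]
    norm_num
  have hI : I7 (A * m) := I7_of hj
  have h7A : ¬ 7 ∣ A := by
    intro h
    have h0 : jacobiSym (A : ℤ) 7 = jacobiSym 0 7 := jac7_congr (by
      rw [sub_zero]; exact_mod_cast h)
    rw [hA7] at h0
    norm_num at h0
  obtain ⟨F, H⟩ := exists_SF hF
  have hEF : EF (A * m) (FA F A) := by
    refine ⟨fun v hv => FA_rot hF H (dvd_mul_right _ _) h7A hv, fun v hv => ?_, fun v hv => ?_⟩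
    · rw [FA_wot hAor hFm hcop hF H h7A hv, hA7, one_mul]
    · rw [FA_neg H (dvd_mul_right _ _) h7A hv, Pool.Agent.N970.Sgn.sgnE_zero hAor hFm hcop, one_mul]
  have hb := bil hEF hEF h3 h3 (N := A * m) (by ring) hj
  have hs : jacobiSym (-((A * m : ℕ) : ℤ)) 3 = 1 := j31 (by omega)
  rw [hs, one_mul] at hb
  have e1 : X7 A (A * m) = (∑ v ∈ vec7 (A * m : ℕ), FA F A v) *
      ∑ v ∈ vec7 (A * m : ℕ), FA F A v := by
    unfold X7
    rw [sum_mul_sum]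
    exact sum_congr rfl fun v hv => sum_congr rfl fun w hw =>
      FA_mul H (dvd_mul_right _ _) h7A hv hw
  have e2 : N7 A (A * m) = (∑ v ∈ vec7 (A * m : ℕ), wn v * FA F A v) *
      ∑ v ∈ vec7 (A * m : ℕ), wn v * FA F A v := by
    unfold N7
    rw [sum_mul_sum]
    refine sum_congr rfl fun v hv => sum_congr rfl fun w hw => ?_
    rw [FA_mul H (dvd_mul_right _ _) h7A hv hw]
    ring
  rw [e1, e2, ← hb]
  have e3 : ∀ T ∈ (range (A * m)).filter (fun T => 3 ∣ T ∧ 7 ∣ A * m - T),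
      ∑ q ∈ (vec7 (A * m : ℕ) ×ˢ vec7 (A * m : ℕ)).filter
        (fun q => ip7 q.1 q.2 = 2 * T - ((A * m : ℕ) : ℤ)), FA F A q.1 * FA F A q.2 * cl q.1 q.2 =
      8 * (sgnE 1 A (A * m) T *
        L37 (A * m) (2 * T - (A * m : ℕ)) (4 * (A * m - T) * T)) := by
    intro T hT
    rw [mem_filter, mem_range] at hT
    obtain ⟨hTn, hT3, hT7⟩ := hT
    have hT0 : 0 < T := by
      rcases Nat.eq_zero_or_pos T with rfl | h
      · exfalso
        rw [Nat.sub_zero] at hT7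
        exact i7_nd hI hT7
      · exact h
    have h4 : 2 ∣ A * m → 4 ∣ A * m := by
      intro h
      obtain ⟨k, hk, -⟩ := Fn_two hF h
      exact ⟨k, hk⟩
    have e4 := cl_L37 hF h4 h3 hI h3 (N := A * m) (by ring) hT0 hTn hT3
    have e5 : 8 * (sgnE 1 A (A * m) T * L37 (A * m) (2 * T - (A * m : ℕ)) (4 * (A * m - T) * T)) =
        sgnE 1 A (A * m) T * (8 * L37 (A * m) (2 * T - (A * m : ℕ)) (4 * (A * m - T) * T)) := by
      ring
    rw [e5, ← e4, mul_sum]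
    refine sum_congr rfl fun q hq => ?_
    rw [mem_filter, mem_product] at hq
    rw [← FA_mul H (dvd_mul_right _ _) h7A hq.1.1 hq.1.2, hq.2]
    congr 2
    have : ((A * m : ℕ) : ℤ) + (2 * T - (A * m : ℕ)) = 2 * T := by ring
    rw [this]
    exact Int.mul_ediv_cancel_left _ two_ne_zero
  rw [sum_congr rfl e3, ← mul_sum]
  ring

/-- **BILN2** -/
theorem t_BILN2 : S_BILN2 := by
  rintro m ⟨hFm, hm3, hm7⟩
  have hj : jacobiSym ((2 * m : ℕ) : ℤ) 7 = 1 := by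
    push_cast
    rw [jacobiSym.mul_left, (jac7 hm7).1]
    norm_num
  have h4m : (4 * m) % 3 = 2 := by omega
  have hb := bil (ef_one m) (ef_one (4 * m)) hm3 h4m (N := 2 * m) (by ring) hj
  have hs : jacobiSym (-((2 * m : ℕ) : ℤ)) 3 = -1 := j32 (by omega)
  rw [hs] at hb
  have e3 : ∀ T ∈ (range (2 * m)).filter (fun T => 3 ∣ T ∧ 7 ∣ 2 * m - T),
      ∑ q ∈ (vec7 m ×ˢ vec7 (4 * m : ℕ)).filter
        (fun q => ip7 q.1 q.2 = 2 * T - ((2 * m : ℕ) : ℤ)), (1 : ℤ) * 1 * cl q.1 q.2 =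
      8 * L37 m (2 * T - (2 * m : ℕ)) (4 * (2 * m - T) * T) := by
    intro T hT
    rw [mem_filter, mem_range] at hT
    obtain ⟨hTn, hT3, hT7⟩ := hT
    have hT0 : 0 < T := by
      rcases Nat.eq_zero_or_pos T with rfl | h
      · exfalso
        rw [Nat.sub_zero] at hT7
        have := i7_nd hm7
        omega
      · exact h
    simp only [one_mul]
    exact cl_L37 hFm (fun _ => dvd_mul_right _ _) hm3 hm7 h4m (by ring) hT0 hTn hT3
  rw [sum_congr rfl e3, ← mul_sum] at hb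
  simp only [sum_const, nsmul_eq_mul, mul_one] at hb
  have e : ((4 * m : ℕ) : ℤ) = 4 * (m : ℤ) := by push_cast; rfl
  rw [e] at hb
  have hc : ∀ n : ℤ, ∑ v ∈ vec7 n, wn v = cn n := fun _ => rfl
  rw [hc, hc] at hb
  linarith

end Pool.Agent.N218.P21G
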