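import Pool.Agent.N218.P21G.Rot7
import Pool.Agent.N970.RQ.Bil7

/-!
# Project P21G: sums over the pairs of vectors with a common isotropic line modulo `3`

Generic sign functions `E` invariant under the rotations and the opposite.
-/

set_option autoImplicit false
set_option linter.unusedSectionVars false

namespace Pool.Agent.N218.P21G

open Finset
open Pool.Agent.N969.P15 (V3 Ev c2)
open Pool.Agent.N969.RQ (ip7 vec7 Fd c7)
open Pool.Agent.N877.P21G (Fn wn cn)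
open Pool.Agent.N970.P21G (mem7)
open Pool.Agent.N970.RQ (rot7 wot7 rot7_rot7 wot7_wot7 sim_rot7 sim_wot7 L3 cl oo oo_mul oo_rot
  oo_wot oo_neg L3_rot L3_wot cl_eq cl_comm sum_cl)

/-- the linear form which gives the orientation at `3` -/
def MM (i : Fin 4) (v : V3) : ℤ :=
  match i with
  | 0 => v 1 + v 2
  | 1 => v 1
  | 2 => v 1
  | 3 => v 1 + v 2

/-- the orientation at `3` -/
def m3 (i : Fin 4) (v : V3) : ℤ := jacobiSym (MM i v) 3

theorem jac3_congr {a b : ℤ} (h : (3 : ℤ) ∣ a - b) : jacobiSym a 3 = jacobiSym b 3 := by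
  apply jacobiSym.mod_left'
  omega

theorem jac7_congr {a b : ℤ} (h : (7 : ℤ) ∣ a - b) : jacobiSym a 7 = jacobiSym b 7 := by
  apply jacobiSym.mod_left'
  omega

/-- the inner product modulo `3` of two vectors orthogonal to an isotropic line -/
theorem m3_mul (i : Fin 4) {v w : V3} (hv : (3 : ℤ) ∣ L3 i v) (hw : (3 : ℤ) ∣ L3 i w) :
    jacobiSym (ip7 v w) 3 = -(m3 i v * m3 i w) := by
  have key : (3 : ℤ) ∣ ip7 v w - (-1) * (MM i v * MM i w) := by
    obtain ⟨a, ha⟩ := hv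
    obtain ⟨b, hb⟩ := hw
    match i with
    | 0 =>
      simp only [L3] at ha hb
      simp only [MM, ip7]
      exact ⟨4 * (v 1 * w 1) + 3 * (v 2 * w 2) + v 1 * w 2 + v 2 * w 1 + 7 * (a * w 0 - v 1 * b), by
        linear_combination 7 * w 0 * ha - 7 * v 1 * hb⟩
    | 1 =>
      simp only [L3] at ha hb
      simp only [MM, ip7]
      exact ⟨4 * (v 1 * w 1) + 5 * (v 2 * w 2) + 3 * (v 1 * w 2 + v 2 * w 1) +
        7 * (a * w 0 - (v 1 + v 2) * b), by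
        linear_combination 7 * w 0 * ha - 7 * (v 1 + v 2) * hb⟩
    | 2 =>
      simp only [L3] at ha hb
      simp only [MM, ip7]
      exact ⟨4 * (v 1 * w 1) + 5 * (v 2 * w 2) + 3 * (v 1 * w 2 + v 2 * w 1) +
        7 * (a * w 0 + (v 1 + v 2) * b), by
        linear_combination 7 * w 0 * ha + 7 * (v 1 + v 2) * hb⟩
    | 3 =>
      simp only [L3] at ha hb
      simp only [MM, ip7]
      exact ⟨4 * (v 1 * w 1) + 3 * (v 2 * w 2) + v 1 * w 2 + v 2 * w 1 + 7 * (a * w 0 + v 1 * b), by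
        linear_combination 7 * w 0 * ha + 7 * v 1 * hb⟩
  rw [jac3_congr key, jacobiSym.mul_left, jacobiSym.mul_left, show jacobiSym (-1) 3 = -1 by norm_num]
  unfold m3
  ring

theorem m3_rot (i : Fin 4) (v : V3) : m3 i (rot7 v) = m3 (![2, 3, 0, 1] i) v := by
  unfold m3
  congr 1
  match i with
  | 0 => simp [MM, rot7]
  | 1 => simp [MM, rot7]
  | 2 => simp [MM, rot7]
  | 3 => simp [MM, rot7]

theorem m3_wot (i : Fin 4) (v : V3) : m3 i (wot7 v) = - m3 (![3, 2, 1, 0] i) v := by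
  have e : MM i (wot7 v) = (-1) * MM (![3, 2, 1, 0] i) v := by
    match i with
    | 0 => simp [MM, wot7]; ring
    | 1 => simp [MM, wot7]
    | 2 => simp [MM, wot7]
    | 3 => simp [MM, wot7]; ring
  unfold m3
  rw [e, jacobiSym.mul_left, show jacobiSym (-1) 3 = -1 by norm_num]
  ring

/-- a sign function invariant under the rotations -/
structure EF (n : ℕ) (E : V3 → ℤ) : Prop where
  rot : ∀ v ∈ vec7 n, E (rot7 v) = E v
  wot : ∀ v ∈ vec7 n, E (wot7 v) = E v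
  neg : ∀ v ∈ vec7 n, E (-v) = E v

/-- the indicator function -/
def id3 (i : Fin 4) (v : V3) : ℤ := if (3 : ℤ) ∣ L3 i v then 1 else 0

theorem id3_rot (i : Fin 4) (v : V3) : id3 i (rot7 v) = id3 (![2, 3, 0, 1] i) v := by
  unfold id3
  simp only [L3_rot]

theorem id3_wot (i : Fin 4) (v : V3) : id3 i (wot7 v) = id3 (![3, 2, 1, 0] i) v := by
  unfold id3
  simp only [L3_wot]

/-- the sum over an isotropic line -/
noncomputable def Fi (E : V3 → ℤ) (n : ℕ) (i : Fin 4) : ℤ := ∑ v ∈ vec7 n, id3 i v * E v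

/-- the sum with orientations -/
noncomputable def Gi (E : V3 → ℤ) (n : ℕ) (i : Fin 4) : ℤ := ∑ v ∈ vec7 n, id3 i v * (E v * (oo v * m3 i v))

theorem sum_rot (n : ℕ) (f : V3 → ℤ) : ∑ v ∈ vec7 n, f (rot7 v) = ∑ v ∈ vec7 n, f v :=
  sum_nbij' rot7 rot7 (fun _ h => rot_mem h) (fun _ h => rot_mem h) (fun v _ => rot7_rot7 v)
    (fun v _ => rot7_rot7 v) (fun _ _ => rfl)

theorem sum_wot (n : ℕ) (f : V3 → ℤ) : ∑ v ∈ vec7 n, f (wot7 v) = ∑ v ∈ vec7 n, f v :=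
  sum_nbij' wot7 wot7 (fun _ h => wot_mem h) (fun _ h => wot_mem h) (fun v _ => wot7_wot7 v)
    (fun v _ => wot7_wot7 v) (fun _ _ => rfl)

theorem sum_neg7 (n : ℕ) (f : V3 → ℤ) : ∑ v ∈ vec7 n, f (-v) = ∑ v ∈ vec7 n, f v :=
  sum_nbij' (fun v => -v) (fun v => -v) (fun _ h => neg_mem h) (fun _ h => neg_mem h)
    (fun v _ => neg_neg v) (fun v _ => neg_neg v) (fun _ _ => rfl)

variable {n : ℕ} {E : V3 → ℤ}

theorem Fi_rot (H : EF n E) (i : Fin 4) : Fi E n i = Fi E n (![2, 3, 0, 1] i) := by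
  unfold Fi
  rw [← sum_rot]
  refine sum_congr rfl fun v hv => ?_
  rw [id3_rot, H.rot v hv]

theorem Fi_wot (H : EF n E) (i : Fin 4) : Fi E n i = Fi E n (![3, 2, 1, 0] i) := by
  unfold Fi
  rw [← sum_wot]
  refine sum_congr rfl fun v hv => ?_
  rw [id3_wot, H.wot v hv]

theorem Gi_rot (H : EF n E) (i : Fin 4) : Gi E n i = Gi E n (![2, 3, 0, 1] i) := by
  unfold Gi
  rw [← sum_rot]
  refine sum_congr rfl fun v hv => ?_
  rw [id3_rot, H.rot v hv, oo_rot, m3_rot]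

theorem Gi_wot (H : EF n E) (i : Fin 4) : Gi E n i = Gi E n (![3, 2, 1, 0] i) := by
  unfold Gi
  rw [← sum_wot]
  refine sum_congr rfl fun v hv => ?_
  rw [id3_wot, H.wot v hv, oo_wot, m3_wot]
  ring

theorem Fi_eq (H : EF n E) (i : Fin 4) : Fi E n i = Fi E n 0 := by
  have a := Fi_rot H 0
  have b := Fi_wot H 0
  have c := Fi_rot H 1
  simp only [Matrix.cons_val_zero, Matrix.cons_val_one] at a b c
  match i with
  | 0 => rfl
  | 1 => rw [c, ← b]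
  | 2 => exact a.symm
  | 3 => exact b.symm

theorem Gi_eq (H : EF n E) (i : Fin 4) : Gi E n i = Gi E n 0 := by
  have a := Gi_rot H 0
  have b := Gi_wot H 0
  have c := Gi_rot H 1
  simp only [Matrix.cons_val_zero, Matrix.cons_val_one] at a b c
  match i with
  | 0 => rfl
  | 1 => rw [c, ← b]
  | 2 => exact a.symm
  | 3 => exact b.symm

theorem cl_id (v w : V3) : cl v w = ∑ i : Fin 4, id3 i v * id3 i w := rfl

theorem id3_sq (i : Fin 4) (v : V3) : id3 i v * id3 i v = id3 i v := by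
  unfold id3
  split_ifs <;> rfl

/-- every vector is orthogonal to two of the lines -/
theorem sum_id3 (hn : n % 3 = 2) {v : V3} (hv : v ∈ vec7 n) : ∑ i : Fin 4, id3 i v = 2 := by
  have h := cl_eq hn hn (mem7.1 hv) (mem7.1 hv)
  rw [cl_id, mem7.1 hv] at h
  simp only [id3_sq] at h
  rw [h, if_pos ⟨0, by ring⟩, if_pos fun i => ⟨0, by ring⟩]
  rfl

theorem two_Fi (H : EF n E) (hn : n % 3 = 2) : 2 * Fi E n 0 = ∑ v ∈ vec7 n, E v := by
  have h1 : ∑ i : Fin 4, Fi E n i = 2 * ∑ v ∈ vec7 n, E v := by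
    unfold Fi
    rw [sum_comm, mul_sum]
    refine sum_congr rfl fun v hv => ?_
    rw [← sum_mul, sum_id3 hn hv]
  rw [sum_congr rfl fun i _ => Fi_eq H i, sum_const, card_univ, Fintype.card_fin] at h1
  simp only [nsmul_eq_mul] at h1
  push_cast at h1
  linarith

theorem two_Gi : 2 * Gi E n 0 = ∑ v ∈ vec7 n, wn v * E v := by
  unfold Gi
  rw [mul_sum]
  refine sum_congr rfl fun v _ => ?_
  have e : L3 0 v = v 1 + v 0 := by simp [L3]; ring
  unfold wn id3 m3 oo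
  rw [e]
  simp only [MM]
  split_ifs <;> ring

/-! ### the pairs -/

/-- the sum over the pairs with weight the number of common lines -/
theorem pair_cl {n1 n2 : ℕ} {E1 E2 : V3 → ℤ} (H1 : EF n1 E1) (H2 : EF n2 E2) (h1 : n1 % 3 = 2)
    (h2 : n2 % 3 = 2) :
    ∑ q ∈ vec7 n1 ×ˢ vec7 n2, E1 q.1 * E2 q.2 * cl q.1 q.2 =
      (∑ v ∈ vec7 n1, E1 v) * ∑ v ∈ vec7 n2, E2 v := by
  have e1 : ∑ q ∈ vec7 n1 ×ˢ vec7 n2, E1 q.1 * E2 q.2 * cl q.1 q.2 =
      ∑ i : Fin 4, Fi E1 n1 i * Fi E2 n2 i := by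
    rw [sum_product]
    unfold Fi
    simp only [sum_mul_sum, cl_id]
    symm
    rw [sum_comm]
    refine sum_congr rfl fun v _ => ?_
    rw [sum_comm]
    refine sum_congr rfl fun w _ => ?_
    rw [mul_sum]
    exact sum_congr rfl fun i _ => by ring
  rw [e1, sum_congr rfl fun i _ => by rw [Fi_eq H1 i, Fi_eq H2 i], sum_const, card_univ,
    Fintype.card_fin, ← two_Fi H1 h1, ← two_Fi H2 h2]
  simp only [nsmul_eq_mul]
  push_cast
  ring

/-- the sum with the orientations -/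
theorem pair_or {n1 n2 : ℕ} {E1 E2 : V3 → ℤ} (H1 : EF n1 E1) (H2 : EF n2 E2) :
    ∑ q ∈ vec7 n1 ×ˢ vec7 n2, E1 q.1 * E2 q.2 * cl q.1 q.2 *
      (jacobiSym (ip7 q.1 q.2) 3 * jacobiSym (ip7 q.1 q.2) 7) =
      -((∑ v ∈ vec7 n1, wn v * E1 v) * ∑ v ∈ vec7 n2, wn v * E2 v) := by
  have e1 : ∑ q ∈ vec7 n1 ×ˢ vec7 n2, E1 q.1 * E2 q.2 * cl q.1 q.2 *
      (jacobiSym (ip7 q.1 q.2) 3 * jacobiSym (ip7 q.1 q.2) 7) =
      - ∑ i : Fin 4, Gi E1 n1 i * Gi E2 n2 i := by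
    rw [sum_product, ← sum_neg_distrib]
    unfold Gi
    simp only [sum_mul_sum, cl_id, ← sum_neg_distrib]
    symm
    rw [sum_comm]
    refine sum_congr rfl fun v _ => ?_
    rw [sum_comm]
    refine sum_congr rfl fun w _ => ?_
    rw [mul_sum, sum_mul]
    refine sum_congr rfl fun i _ => ?_
    by_cases hv : (3 : ℤ) ∣ L3 i v
    · by_cases hw : (3 : ℤ) ∣ L3 i w
      · rw [m3_mul i hv hw, ← oo_mul]
        ring
      · have : id3 i w = 0 := if_neg hw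
        rw [this]
        ring
    · have : id3 i v = 0 := if_neg hv
      rw [this]
      ring
  rw [e1, sum_congr rfl fun i _ => by rw [Gi_eq H1 i, Gi_eq H2 i], sum_const, card_univ,
    Fintype.card_fin, ← two_Gi, ← two_Gi]
  simp only [nsmul_eq_mul]
  push_cast
  ring

theorem cl_neg (v w : V3) : cl (-v) w = cl v w := by
  rw [cl_id, cl_id]
  refine sum_congr rfl fun i _ => ?_
  congr 1
  unfold id3
  have e : L3 i (-v) = - L3 i v := by
    match i with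
    | 0 => simp [L3]; ring
    | 1 => simp [L3]; ring
    | 2 => simp [L3]; ring
    | 3 => simp [L3]; ring
  rw [e]
  simp only [dvd_neg]

/-- odd functions of the inner product -/
theorem pair_odd {n1 n2 : ℕ} {E1 E2 : V3 → ℤ} (H1 : EF n1 E1) {g : ℤ → ℤ}
    (hg : ∀ x, g (-x) = - g x) :
    ∑ q ∈ vec7 n1 ×ˢ vec7 n2, E1 q.1 * E2 q.2 * cl q.1 q.2 * g (ip7 q.1 q.2) = 0 := by
  rw [sum_product]
  have h : ∑ v ∈ vec7 n1, ∑ w ∈ vec7 n2, E1 v * E2 w * cl v w * g (ip7 v w) =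
      - ∑ v ∈ vec7 n1, ∑ w ∈ vec7 n2, E1 v * E2 w * cl v w * g (ip7 v w) := by
    conv_lhs => rw [← sum_neg7]
    rw [← sum_neg_distrib]
    refine sum_congr rfl fun v hv => ?_
    rw [← sum_neg_distrib]
    refine sum_congr rfl fun w _ => ?_
    rw [H1.neg v hv, cl_neg, neg_ip7, hg]
    ring
  show ∑ v ∈ vec7 n1, ∑ w ∈ vec7 n2, E1 v * E2 w * cl v w * g (ip7 v w) = 0
  linarith

theorem jac3_neg (x : ℤ) : jacobiSym (-x) 3 = - jacobiSym x 3 := by
  rw [← neg_one_mul, jacobiSym.mul_left, show jacobiSym (-1) 3 = -1 by norm_num]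
  ring

theorem jac7_neg (x : ℤ) : jacobiSym (-x) 7 = - jacobiSym x 7 := by
  rw [← neg_one_mul, jacobiSym.mul_left, show jacobiSym (-1) 7 = -1 by norm_num]
  ring

/-- **the sum over the residue classes** -/
theorem pair_res {n1 n2 : ℕ} {E1 E2 : V3 → ℤ} (H1 : EF n1 E1) (H2 : EF n2 E2) (h1 : n1 % 3 = 2)
    (h2 : n2 % 3 = 2) (s3 s7 : ℤ) :
    ∑ q ∈ vec7 n1 ×ˢ vec7 n2, E1 q.1 * E2 q.2 * cl q.1 q.2 *
      ((1 + s3 * jacobiSym (ip7 q.1 q.2) 3) * (1 + s7 * jacobiSym (ip7 q.1 q.2) 7)) =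
      (∑ v ∈ vec7 n1, E1 v) * (∑ v ∈ vec7 n2, E2 v) -
      s3 * s7 * ((∑ v ∈ vec7 n1, wn v * E1 v) * ∑ v ∈ vec7 n2, wn v * E2 v) := by
  have a1 := pair_cl H1 H2 h1 h2
  have a2 := pair_or H1 H2
  have a3 := pair_odd (n2 := n2) (E2 := E2) H1 (g := fun x => jacobiSym x 3) jac3_neg
  have a4 := pair_odd (n2 := n2) (E2 := E2) H1 (g := fun x => jacobiSym x 7) jac7_neg
  have e : ∑ q ∈ vec7 n1 ×ˢ vec7 n2, E1 q.1 * E2 q.2 * cl q.1 q.2 *
      ((1 + s3 * jacobiSym (ip7 q.1 q.2) 3) * (1 + s7 * jacobiSym (ip7 q.1 q.2) 7)) =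
      ∑ q ∈ vec7 n1 ×ˢ vec7 n2, E1 q.1 * E2 q.2 * cl q.1 q.2 +
      s3 * ∑ q ∈ vec7 n1 ×ˢ vec7 n2, E1 q.1 * E2 q.2 * cl q.1 q.2 * jacobiSym (ip7 q.1 q.2) 3 +
      s7 * ∑ q ∈ vec7 n1 ×ˢ vec7 n2, E1 q.1 * E2 q.2 * cl q.1 q.2 * jacobiSym (ip7 q.1 q.2) 7 +
      s3 * s7 * ∑ q ∈ vec7 n1 ×ˢ vec7 n2, E1 q.1 * E2 q.2 * cl q.1 q.2 *
        (jacobiSym (ip7 q.1 q.2) 3 * jacobiSym (ip7 q.1 q.2) 7) := by
    rw [mul_sum, mul_sum, mul_sum, ← sum_add_distrib, ← sum_add_distrib, ← sum_add_distrib]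
    exact sum_congr rfl fun q _ => by ring
  rw [e, a1, a2, a3, a4]
  ring

end Pool.Agent.N218.P21G
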