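import Pool.Agent.N218.P21G.Sg7
import Pool.Agent.N975.Ph.Low

/-!
# Project P21G: the sign functions on the vectors of the lattice ramified at `7` and the rotations
-/

set_option autoImplicit false
set_option linter.unusedSectionVars false

namespace Pool.Agent.N218.P21G

open Finset
open Pool.Agent.N969.P15 (V3 Ev c2)
open Pool.Agent.N969.RQ (ip7 vec7 Fd)
open Pool.Agent.N877.P21G (Fn)
open Pool.Agent.N970.P21G (mem7)
open Pool.Agent.N969.P17G (sgp sg2 sgn sgnE t2 chP)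
open Pool.Agent.N970.P17G (hs hs_mul hs_sq hs_sq_mul sg2_ne sg2_zero c2_pm c2_mod)
open Pool.Agent.N970.RQ (rot7 wot7 rot7_rot7 wot7_wot7 sim_rot7 sim_wot7)
open Pool.Agent.N975.PG (jac_sq jac_congr jac_zero)

theorem ip7_self (v : V3) : ip7 v v = 7 * v 0 ^ 2 + (2 * v 1 + v 2) ^ 2 + 7 * v 2 ^ 2 := by
  unfold ip7
  ring

theorem rot0 (v : V3) : rot7 v 0 = -v 0 := rfl
theorem rot1 (v : V3) : rot7 v 1 = v 1 + v 2 := rfl
theorem rot2 (v : V3) : rot7 v 2 = -v 2 := rfl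
theorem wot0 (v : V3) : wot7 v 0 = v 0 := rfl
theorem wot1 (v : V3) : wot7 v 1 = -v 1 := rfl
theorem wot2 (v : V3) : wot7 v 2 = -v 2 := rfl

theorem T_rot {n : ℤ} {v : V3} (hv : ip7 v v = n) :
    (n + ip7 v (rot7 v)) / 2 = (2 * v 1 + v 2) ^ 2 := by
  have h : n + ip7 v (rot7 v) = 2 * (2 * v 1 + v 2) ^ 2 := by
    rw [← hv]
    unfold ip7
    rw [rot0, rot1, rot2]
    ring
  rw [h]
  exact Int.mul_ediv_cancel_left _ two_ne_zero

theorem T_wot {n : ℤ} {v : V3} (hv : ip7 v v = n) :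
    (n + ip7 v (wot7 v)) / 2 = v 0 ^ 2 * 7 := by
  have h : n + ip7 v (wot7 v) = 2 * (v 0 ^ 2 * 7) := by
    rw [← hv]
    unfold ip7
    rw [wot0, wot1, wot2]
    ring
  rw [h]
  exact Int.mul_ediv_cancel_left _ two_ne_zero

theorem T_neg {n : ℤ} {v : V3} (hv : ip7 v v = n) : (n + ip7 v (-v)) / 2 = 0 := by
  rw [ip7_neg, hv]
  simp

theorem rot_mem {n : ℕ} {v : V3} (hv : v ∈ vec7 n) : rot7 v ∈ vec7 n := by
  rw [mem7] at hv ⊢
  rw [sim_rot7.iso, hv]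
  ring

theorem wot_mem {n : ℕ} {v : V3} (hv : v ∈ vec7 n) : wot7 v ∈ vec7 n := by
  rw [mem7] at hv ⊢
  rw [sim_wot7.iso, hv]
  ring

theorem neg_mem {n : ℕ} {v : V3} (hv : v ∈ vec7 n) : -v ∈ vec7 n := by
  rw [mem7] at hv ⊢
  rw [ip7_neg, neg_ip7, neg_neg, hv]

/-! ### the local signs of a vector and its image -/

theorem mod8 (x : ℤ) : x ^ 2 % 8 = 0 ∨ x ^ 2 % 8 = 1 ∨ x ^ 2 % 8 = 4 := by
  have h : x % 8 = 0 ∨ x % 8 = 1 ∨ x % 8 = 2 ∨ x % 8 = 3 ∨ x % 8 = 4 ∨ x % 8 = 5 ∨ x % 8 = 6 ∨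
    x % 8 = 7 := by omega
  rcases h with h | h | h | h | h | h | h | h <;> rw [pow_two, Int.mul_emod, h] <;> norm_num

theorem c2_case {n : ℕ} (hE : Ev n) {v : V3} (hv : ip7 v v = n) (ht : 2 * v 1 + v 2 = 0) :
    c2 n (-1) = 1 := by
  obtain ⟨m, rfl, hs, hm⟩ := hE
  have h1 : v 2 = -(2 * v 1) := by linarith
  rw [ip7_self, ht, h1] at hv
  push_cast at hv
  have h2 : (v 0) % 2 = 0 := by
    rcases Int.emod_two_eq_zero_or_one (v 0) with h | h
    · exact h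
    · exfalso
      have h3 : (v 0 ^ 2) % 2 = 1 := by rw [pow_two, Int.mul_emod, h]; norm_num
      have h4 : 7 * v 0 ^ 2 = 4 * (m - 7 * v 1 ^ 2) := by linear_combination hv
      omega
  obtain ⟨x, hx⟩ : ∃ x, v 0 = 2 * x := ⟨v 0 / 2, by omega⟩
  have h5 : (m : ℤ) = 7 * (x ^ 2 + v 1 ^ 2) := by
    rw [hx] at hv
    linarith
  have h6 := mod8 x
  have h7 := mod8 (v 1)
  generalize x ^ 2 = X at h5 h6
  generalize v 1 ^ 2 = Y at h5 h7
  unfold c2
  rw [if_neg (by norm_num)]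
  have h8 : ¬ (4 * m) % 16 = 4 := by omega
  have h9 : ¬ (4 * m) % 32 = 8 := by omega
  rw [if_neg h8, if_neg h9]
  norm_num

theorem ev_of {n : ℕ} (hn : Fn n) (h : 2 ∣ n) : Ev n := by
  rcases hn with ⟨-, h4⟩ | hE
  · omega
  · exact hE

theorem not_two {p : ℕ} (hp : p.Prime) (h2 : p ≠ 2) : ¬ (p : ℤ) ∣ 2 := by
  intro h7
  have h8 : p ∣ 2 := by exact_mod_cast h7
  exact h2 ((Nat.prime_dvd_prime_iff_eq hp Nat.prime_two).1 h8)

theorem not_seven {p : ℕ} (hp : p.Prime) (h7 : p ≠ 7) : ¬ (p : ℤ) ∣ 7 := by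
  intro h
  have h8 : p ∣ 7 := by exact_mod_cast h
  exact h7 ((Nat.prime_dvd_prime_iff_eq hp (by norm_num)).1 h8)

/-- not all coordinates are divisible by `p` -/
theorem not_all {n p : ℕ} (hn : Fn n) (hp : p.Prime) (h2 : p ≠ 2) {v : V3}
    (hv : ip7 v v = n) (h0 : (p : ℤ) ∣ v 0) (h1 : (p : ℤ) ∣ 2 * v 1 + v 2) (h3 : (p : ℤ) ∣ v 2) :
    False := by
  apply sqf_of hn hp h2
  obtain ⟨a, ha⟩ := h0
  obtain ⟨b, hb⟩ := h1
  obtain ⟨c, hc⟩ := h3
  have : ((p : ℤ)) ^ 2 ∣ n := by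
    refine ⟨7 * a ^ 2 + b ^ 2 + 7 * c ^ 2, ?_⟩
    rw [← hv, ip7_self, ha, hb, hc]
    ring
  exact_mod_cast this

/-- `sgp` at a square times a constant -/
theorem sgp_sq {n p : ℕ} (hp : p.Prime) (t c : ℤ) (hc : ¬ (p : ℤ) ∣ c) :
    sgp 1 n p (t ^ 2 * c) = if (p : ℤ) ∣ t then jacobiSym (-1) p else jacobiSym c p := by
  have hP := Nat.prime_iff_prime_int.1 hp
  unfold sgp
  by_cases ht : (p : ℤ) ∣ t
  · obtain ⟨s, hs⟩ := ht
    have hp0 : (p : ℤ) ≠ 0 := by exact_mod_cast hp.ne_zero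
    have e0 : t ^ 2 * c = p * (p * s ^ 2 * c) := by rw [hs]; ring
    have e1 : t ^ 2 * c / (p : ℤ) = p * s ^ 2 * c := by
      rw [e0]
      exact Int.mul_ediv_cancel_left _ hp0
    rw [if_pos ⟨_, e0⟩, e1, if_pos ⟨s ^ 2 * c, by ring⟩, if_pos ⟨s, hs⟩]
    norm_num
  · have h1 : ¬ (p : ℤ) ∣ t ^ 2 * c := fun h => (hP.dvd_mul.1 h).elim
      (fun h2 => ht (hP.dvd_of_dvd_pow h2)) hc
    rw [if_neg h1, if_neg ht, jacobiSym.mul_left, jacobiSym.pow_left, jac_sq hp ht, one_mul]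

theorem lo_rot {n p : ℕ} (hn : Fn n) (hp : p.Prime) (h7 : p ≠ 7) (hd : p ∣ n) {v : V3}
    (hv : ip7 v v = n) : lo n p ((2 * v 1 + v 2) ^ 2) = 1 := by
  by_cases h2 : p = 2
  · subst h2
    have hE := ev_of hn hd
    rw [lo, if_pos rfl]
    by_cases ht : 2 * v 1 + v 2 = 0
    · have e0 : (2 * v 1 + v 2) ^ 2 = 0 := by rw [ht]; norm_num
      rw [e0, sg2_zero, c2_case hE hv ht]
      norm_num
    · rw [sg2_ne (pow_ne_zero 2 ht), hs_sq n ht]
  · rw [lo, if_neg h2]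
    have hP := Nat.prime_iff_prime_int.1 hp
    have h1 : ¬ (p : ℤ) ∣ 1 := by
      intro h
      have h' : p ∣ 1 := by exact_mod_cast h
      exact hp.one_lt.ne' (Nat.dvd_one.1 h')
    have e := sgp_sq (n := n) hp (2 * v 1 + v 2) 1 h1
    rw [mul_one] at e
    rw [e]
    split_ifs with ht
    · have hdn : (p : ℤ) ∣ n := by exact_mod_cast hd
      have h5 : (p : ℤ) ∣ v 0 ^ 2 + v 2 ^ 2 := by
        have h6 : (p : ℤ) ∣ 7 * (v 0 ^ 2 + v 2 ^ 2) := by
          have e : 7 * (v 0 ^ 2 + v 2 ^ 2) = n - (2 * v 1 + v 2) * (2 * v 1 + v 2) := by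
            rw [← hv, ip7_self]
            ring
          rw [e]
          exact dvd_sub hdn (ht.mul_right _)
        exact (hP.dvd_mul.1 h6).resolve_left (not_seven hp h7)
      have hx : ¬ (p : ℤ) ∣ v 2 := by
        intro hx
        have h0 : (p : ℤ) ∣ v 0 := by
          apply hP.dvd_of_dvd_pow (n := 2)
          have e : v 0 ^ 2 = (v 0 ^ 2 + v 2 ^ 2) - v 2 * v 2 := by ring
          rw [e]
          exact dvd_sub h5 (hx.mul_right _)
        exact not_all hn hp h2 hv h0 ht hx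
      have h0 : ¬ (p : ℤ) ∣ v 0 := by
        intro h0
        apply hx
        apply hP.dvd_of_dvd_pow (n := 2)
        have e : v 2 ^ 2 = (v 0 ^ 2 + v 2 ^ 2) - v 0 * v 0 := by ring
        rw [e]
        exact dvd_sub h5 (h0.mul_right _)
      have h6 : jacobiSym (v 0 ^ 2) p = jacobiSym (-1 * v 2 ^ 2) p := by
        apply jac_congr
        have e : v 0 ^ 2 - -1 * v 2 ^ 2 = v 0 ^ 2 + v 2 ^ 2 := by ring
        rw [e]
        exact h5
      rw [jacobiSym.mul_left, jacobiSym.pow_left, jacobiSym.pow_left, jac_sq hp h0, jac_sq hp hx,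
        mul_one] at h6
      exact h6.symm
    · exact jacobiSym.one_left p

theorem lo_wot {n p : ℕ} (hn : Fn n) (hp : p.Prime) (h2 : p ≠ 2) (h7 : p ≠ 7) (hd : p ∣ n) {v : V3}
    (hv : ip7 v v = n) : lo n p (v 0 ^ 2 * 7) = jacobiSym 7 p := by
  rw [lo, if_neg h2, sgp_sq hp _ _ (not_seven hp h7)]
  split_ifs with ht
  · have hP := Nat.prime_iff_prime_int.1 hp
    have hdn : (p : ℤ) ∣ n := by exact_mod_cast hd
    have h5 : (p : ℤ) ∣ (2 * v 1 + v 2) ^ 2 + 7 * v 2 ^ 2 := by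
      have e : (2 * v 1 + v 2) ^ 2 + 7 * v 2 ^ 2 = n - v 0 * (7 * v 0) := by
        rw [← hv, ip7_self]
        ring
      rw [e]
      exact dvd_sub hdn (ht.mul_right _)
    have hx : ¬ (p : ℤ) ∣ v 2 := by
      intro hx
      have h0 : (p : ℤ) ∣ 2 * v 1 + v 2 := by
        apply hP.dvd_of_dvd_pow (n := 2)
        have e : (2 * v 1 + v 2) ^ 2 = ((2 * v 1 + v 2) ^ 2 + 7 * v 2 ^ 2) - v 2 * (7 * v 2) := by
          ring
        rw [e]
        exact dvd_sub h5 (hx.mul_right _)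
      exact not_all hn hp h2 hv ht h0 hx
    have h0 : ¬ (p : ℤ) ∣ 2 * v 1 + v 2 := by
      intro h0
      apply hx
      apply hP.dvd_of_dvd_pow (n := 2)
      have h6 : (p : ℤ) ∣ 7 * v 2 ^ 2 := by
        have e : 7 * v 2 ^ 2 = ((2 * v 1 + v 2) ^ 2 + 7 * v 2 ^ 2) -
            (2 * v 1 + v 2) * (2 * v 1 + v 2) := by ring
        rw [e]
        exact dvd_sub h5 (h0.mul_right _)
      exact (hP.dvd_mul.1 h6).resolve_left (not_seven hp h7)
    have h6 : jacobiSym ((2 * v 1 + v 2) ^ 2) p = jacobiSym (-1 * 7 * v 2 ^ 2) p := by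
      apply jac_congr
      have e : (2 * v 1 + v 2) ^ 2 - -1 * 7 * v 2 ^ 2 = (2 * v 1 + v 2) ^ 2 + 7 * v 2 ^ 2 := by ring
      rw [e]
      exact h5
    rw [jacobiSym.mul_left, jacobiSym.mul_left, jacobiSym.pow_left, jacobiSym.pow_left,
      jac_sq hp h0, jac_sq hp hx, mul_one] at h6
    have h8 : jacobiSym 7 p ^ 2 = 1 := jac_sq hp (not_seven hp h7)
    linear_combination (-jacobiSym 7 p) * h6 - jacobiSym (-1) p * h8
  · rfl

theorem lo_wot2 {n : ℕ} (hE : Ev n) {v : V3} (hv : ip7 v v = n) :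
    lo n 2 (v 0 ^ 2 * 7) = c2 n 7 := by
  rw [lo, if_pos rfl]
  by_cases ht : v 0 = 0
  · have e0 : v 0 ^ 2 * 7 = 0 := by rw [ht]; norm_num
    rw [e0, sg2_zero, pow_zero, mul_one]
    exact c2_mod n (by norm_num)
  · rw [sg2_ne (mul_ne_zero (pow_ne_zero 2 ht) (by norm_num)), hs_sq_mul n ht (by norm_num)]
    have := Pool.Agent.N970.P17G.hs_of n (u := 7) (by norm_num) 0
    simpa using this

/-! ### the sign functions -/

variable {n : ℕ} {F : ℕ → V3 → ℤ}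

theorem F_rot (hn : Fn n) (H : SF n F) {p : ℕ} (hp : p.Prime) (h7 : p ≠ 7) (hd : p ∣ n) {v : V3}
    (hv : v ∈ vec7 n) : F p (rot7 v) = F p v := by
  have h1 := H.mul p hp h7 hd v hv (rot7 v) (rot_mem hv)
  rw [T_rot (mem7.1 hv), lo_rot hn hp h7 hd (mem7.1 hv)] at h1
  rcases H.pm p v with h2 | h2 <;> rcases H.pm p (rot7 v) with h4 | h4 <;> rw [h2, h4] at h1 ⊢ <;>
    norm_num at h1

theorem F_wot (hn : Fn n) (H : SF n F) {p : ℕ} (hp : p.Prime) (h2 : p ≠ 2) (h7 : p ≠ 7)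
    (hd : p ∣ n) {v : V3} (hv : v ∈ vec7 n) : F p (wot7 v) = jacobiSym 7 p * F p v := by
  have h1 := H.mul p hp h7 hd v hv (wot7 v) (wot_mem hv)
  rw [T_wot (mem7.1 hv), lo_wot hn hp h2 h7 hd (mem7.1 hv)] at h1
  rw [h1]
  rcases H.pm p v with h2 | h2 <;> rw [h2] <;> ring

theorem F_wot2 (hE : Ev n) (H : SF n F) {v : V3} (hv : v ∈ vec7 n) :
    F 2 (wot7 v) = c2 n 7 * F 2 v := by
  have hd : 2 ∣ n := by
    obtain ⟨m, rfl, -⟩ := hE
    exact ⟨2 * m, by ring⟩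
  have h1 := H.mul 2 Nat.prime_two (by norm_num) hd v hv (wot7 v) (wot_mem hv)
  rw [T_wot (mem7.1 hv), lo_wot2 hE (mem7.1 hv)] at h1
  rw [h1]
  rcases H.pm 2 v with h2 | h2 <;> rw [h2] <;> ring

theorem F_neg (H : SF n F) {p : ℕ} (hp : p.Prime) (h7 : p ≠ 7) (hd : p ∣ n) {v : V3}
    (hv : v ∈ vec7 n) : F p (-v) = lo n p 0 * F p v := by
  have h1 := H.mul p hp h7 hd v hv (-v) (neg_mem hv)
  rw [T_neg (mem7.1 hv)] at h1
  rw [h1]
  rcases H.pm p v with h2 | h2 <;> rw [h2] <;> ring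

/-! ### the products -/

/-- the product of the sign functions -/
def FA (F : ℕ → V3 → ℤ) (A : ℕ) (v : V3) : ℤ := ∏ p ∈ A.primeFactors, F p v

theorem FA_pm (H : SF n F) (A : ℕ) (v : V3) : FA F A v = 1 ∨ FA F A v = -1 := by
  unfold FA
  induction A.primeFactors using Finset.induction_on with
  | empty => left; simp
  | insert a s ha ih =>
    rw [prod_insert ha]
    rcases H.pm a v with h1 | h1 <;> rcases ih with h2 | h2 <;> rw [h1, h2] <;> norm_num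

/-- the pair of signs -/
theorem FA_mul (H : SF n F) {A : ℕ} (hA : A ∣ n) (h7 : ¬ 7 ∣ A) {v w : V3} (hv : v ∈ vec7 n)
    (hw : w ∈ vec7 n) : sgnE 1 A n ((n + ip7 v w) / 2) = FA F A v * FA F A w := by
  rw [sgnE_lo]
  unfold FA
  rw [← prod_mul_distrib]
  refine prod_congr rfl fun p hp => ?_
  have hpA := Nat.dvd_of_mem_primeFactors hp
  exact H.mul p (Nat.prime_of_mem_primeFactors hp) (by rintro rfl; exact h7 hpA)
    (hpA.trans hA) v hv w hw

theorem FA_rot (hn : Fn n) (H : SF n F) {A : ℕ} (hA : A ∣ n) (h7 : ¬ 7 ∣ A) {v : V3}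
    (hv : v ∈ vec7 n) : FA F A (rot7 v) = FA F A v := by
  unfold FA
  refine prod_congr rfl fun p hp => ?_
  have hpA := Nat.dvd_of_mem_primeFactors hp
  exact F_rot hn H (Nat.prime_of_mem_primeFactors hp) (by rintro rfl; exact h7 hpA)
    (hpA.trans hA) hv

theorem FA_neg (H : SF n F) {A : ℕ} (hA : A ∣ n) (h7 : ¬ 7 ∣ A) {v : V3}
    (hv : v ∈ vec7 n) : FA F A (-v) = sgnE 1 A n 0 * FA F A v := by
  rw [sgnE_lo]
  unfold FA
  rw [← prod_mul_distrib]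
  refine prod_congr rfl fun p hp => ?_
  have hpA := Nat.dvd_of_mem_primeFactors hp
  exact F_neg H (Nat.prime_of_mem_primeFactors hp) (by rintro rfl; exact h7 hpA)
    (hpA.trans hA) hv

theorem c2_seven {A m : ℕ} (hA : Fd A) (h2 : 2 ∣ A) (hm : Fn m) (hcop : Nat.Coprime A m) :
    c2 (A * m) 7 = c2 (3 * A) 7 := by
  obtain ⟨-, ⟨hs, h4⟩ | ⟨M, rfl, hs, h4⟩⟩ := hA
  · omega
  · have hm3 : m % 4 = 3 := by
      rcases hm with ⟨-, h⟩ | ⟨k, rfl, -⟩
      · exact h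
      · exfalso
        have : 2 ∣ Nat.gcd (4 * M) (4 * k) := Nat.dvd_gcd ⟨2 * M, by ring⟩ ⟨2 * k, by ring⟩
        rw [hcop] at this
        omega
    obtain ⟨j, rfl⟩ : ∃ j, m = 4 * j + 3 := ⟨m / 4, by omega⟩
    have e : 4 * M * (4 * j + 3) = 16 * (M * j) + 12 * M := by ring
    have e2 : 3 * (4 * M) = 12 * M := by ring
    rw [e, e2]
    have h1 : (16 * (M * j) + 12 * M) % 16 = (12 * M) % 16 := by omega
    have h3 : (16 * (M * j) + 12 * M) % 32 = (12 * M) % 32 ∨ (12 * M) % 16 = 4 := by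
      rcases h4 with h | h
      · left
        obtain ⟨k, rfl⟩ : ∃ k, M = 2 * k := ⟨M / 2, by omega⟩
        have e3 : 16 * (2 * k * j) = 32 * (k * j) := by ring
        rw [e3]
        omega
      · right
        omega
    unfold c2
    rw [h1]
    rcases h3 with h3 | h3
    · rw [h3]
    · rw [if_pos h3, if_pos h3]

/-- the rotation of norm `7` -/
theorem FA_wot {A m : ℕ} (hA : A = 1 ∨ Fd A) (hm : Fn m) (hcop : Nat.Coprime A m)
    (hn : Fn (A * m)) {F : ℕ → V3 → ℤ} (H : SF (A * m) F) (h7 : ¬ 7 ∣ A) {v : V3}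
    (hv : v ∈ vec7 (A * m : ℕ)) : FA F A (wot7 v) = jacobiSym A 7 * FA F A v := by
  rcases hA with rfl | hA
  · unfold FA
    simp
  · rw [← Pool.Agent.N975.Ph.chP_prime hA (p := 7) (by norm_num) (by norm_num)]
    have key : ∀ p ∈ A.primeFactors.erase 2, F p (wot7 v) = jacobiSym 7 p * F p v := by
      intro p hp
      obtain ⟨h2, hp⟩ := mem_erase.1 hp
      have hpA := Nat.dvd_of_mem_primeFactors hp
      exact F_wot hn H (Nat.prime_of_mem_primeFactors hp) h2 (by rintro rfl; exact h7 hpA)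
        (hpA.mul_right m) hv
    unfold FA chP
    by_cases h2 : 2 ∣ A
    · have hA0 : A ≠ 0 := by have := hA.1; omega
      have h2m : 2 ∈ A.primeFactors := Nat.mem_primeFactors.2 ⟨Nat.prime_two, h2, hA0⟩
      have hE : Ev (A * m) := ev_of hn (h2.mul_right m)
      rw [if_pos h2, ← mul_prod_erase _ _ h2m, ← mul_prod_erase _ (fun p => F p v) h2m,
        prod_congr rfl key, prod_mul_distrib, F_wot2 hE H hv, c2_seven hA h2 hm hcop]
      push_cast
      ring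
    · have h2m : 2 ∉ A.primeFactors := fun h => h2 (Nat.dvd_of_mem_primeFactors h)
      rw [erase_eq_of_notMem h2m] at key ⊢
      rw [if_neg h2, one_mul, prod_congr rfl key, prod_mul_distrib]
      push_cast
      ring

end Pool.Agent.N218.P21G
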